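import Pool.Agent.H73.FS.Run
set_option autoImplicit false

/-!
# Steps that optimise exactly over faces of large dimension do not help on abstract cubes

A pivot moves to the better end of an edge, that is, to the best vertex of a face of dimension one. We
consider much more powerful steps. `flip x i` is the neighbour of the vertex `x` of the `n`-cube in
direction `i`, `improving f x` is the set of directions `i` with `f x < f (flip x i)`, `sw x T` is the
vertex `x` with all the directions in `T` switched, and `seen f w t` is the list of triples (visited
vertex, its value, its improving directions) for `w t, …, w 0`. A rule sees this list and names a pair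
`(T, D)`: it switches the set `T` of improving directions (of any size, possibly empty), and then goes to
the best one of the `2 ^ |D|` vertices of the face with the free directions `D` through the vertex it has
reached. Here `D` is any set of at most `d` directions, and at least one improving direction has to lie in
`T` or in `D`. There is no bound on the memory or the computation of the rule. A single pivot is the case
`T = {i}`, `D = ∅` (or `T = ∅`, `D = {i}`); the block pivots of `MP_4d246d_lc.BlockPivots` are the case
`d = 0`.

For every such rule there is an objective function with exactly one local maximum on every face on which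
the rule makes at least `2 ^ k` steps, whenever `100 k ^ 2 (⌊log₂ n⌋ + 1) ^ 3 + 20 k d ≤ n`. So the number
of steps is at least `2 ^ (c min (n ^ (1/2) / (log n) ^ (3/2), n / d))`: it is not polynomial even if
every step optimises exactly over a face of dimension `n / ω(log n)`, and for `d ≤ n ^ (1/2)` the exponent
is the same `n ^ (1/2 - o(1))` as in `MP_4d246d_lc.SquareRootExponent`.

Moreover each of the first `2 ^ k` visited vertices has at least
`n - (100 k ^ 2 (⌊log₂ n⌋ + 1) ^ 3 + 20 k d)` improving directions. So not only the maximum, but already an
approximate local maximum (say, a vertex with at most `0.99 n` improving directions) cannot be reached in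
less than `2 ^ (c min (n ^ (1/2) / (log n) ^ (3/2), n / d))` steps.

Proof. The adversary of `MP_4d246d_lc.SquareRootExponent` is changed as follows. If `T` is not empty, it
answers with the vertex `sw x T`, otherwise with `flip x i` for one improving direction `i ∈ D`, and at the
next vertex it shows no direction of `D` as improving. So the answer is the best vertex of the face of the
rule, in every objective function with one local maximum on every face that has the improving directions
shown. Every visited vertex gets at most `d` useless directions more, which multiplies its weight by at
most `2 ^ (d / s)`; a suitable choice of the scale `s` makes the additional loss `O(k d)` directions for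
`k` levels of epochs.
-/

namespace Pool.Agent.Results.MP_4d246d_lc.FaceSteps

open Finset Pool.Agent.TH70.AR Pool.Agent.TH70.AR.MS Pool.Agent.H73.FS

/-- **Every deterministic rule whose steps switch a set of improving directions and then optimise exactly
over a face of dimension at most `d` is exponential on abstract cubes.** Let `k ≥ 1` and
`100 k ^ 2 (⌊log₂ n⌋ + 1) ^ 3 + 20 k d ≤ n`. A rule sees the list of triples (visited vertex, its objective
value, its set of improving directions), the current one first, and names `(T, D)`, where `T` is a set of
improving directions, `|D| ≤ d`, and an improving direction lies in `T` or in `D`. For every rule and every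
start vertex `x₀` of the `n`-cube there is an injective objective function `f` with exactly one local
maximum on every face (so that increasing paths of at most `n` steps along edges lead from every vertex to
the maximum, and the steps of the rule increase `f`) such that the rule, started at `x₀`, reaches the
maximum after `L ≥ 2 ^ k` steps; and at least `n - (100 k ^ 2 (⌊log₂ n⌋ + 1) ^ 3 + 20 k d)` of the `n`
directions are improving at each of the first `2 ^ k` visited vertices. -/
theorem result (n k d : ℕ) (hk : 1 ≤ k)
    (hn : 100 * k ^ 2 * (Nat.log 2 n + 1) ^ 3 + 20 * k * d ≤ n)
    (rule : List ((Fin n → Bool) × ℕ × Finset (Fin n)) → Finset (Fin n) × Finset (Fin n))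
    (hrule : ∀ (x : Fin n → Bool) (c : ℕ) (S : Finset (Fin n))
      (l : List ((Fin n → Bool) × ℕ × Finset (Fin n))), S.Nonempty →
        (rule ((x, c, S) :: l)).1 ⊆ S ∧ (rule ((x, c, S) :: l)).2.card ≤ d ∧
        ((rule ((x, c, S) :: l)).1 ∪ (rule ((x, c, S) :: l)).2 ∩ S).Nonempty)
    (x₀ : Fin n → Bool) :
    ∃ (f : (Fin n → Bool) → ℕ) (L : ℕ) (w : ℕ → (Fin n → Bool)),
      Function.Injective f ∧
      (∀ (U : Finset (Fin n)) (x : Fin n → Bool), ∃! y : Fin n → Bool,
        (∀ i, i ∉ U → y i = x i) ∧ ∀ i ∈ U, f (TH70.AR.flip y i) < f y) ∧
      (∀ (x y : Fin n → Bool) (T D : Finset (Fin n)), T ⊆ improving f x →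
        (T ∪ D ∩ improving f x).Nonempty → Best f (sw x T) D y → f x < f y) ∧
      (∀ x : Fin n → Bool, ∃ (m : ℕ) (v : ℕ → (Fin n → Bool)), m ≤ n ∧ v 0 = x ∧
        (∀ t < m, ∃ i ∈ improving f (v t), v (t + 1) = TH70.AR.flip (v t) i) ∧
        improving f (v m) = ∅) ∧
      w 0 = x₀ ∧
      (∀ t < L, (improving f (w t)).Nonempty ∧
        Best f (sw (w t) (rule (seen f w t)).1) (rule (seen f w t)).2 (w (t + 1))) ∧
      improving f (w L) = ∅ ∧ 2 ^ k ≤ L ∧
      ∀ t < 2 ^ k, n ≤ (improving f (w t)).card +
        (100 * k ^ 2 * (Nat.log 2 n + 1) ^ 3 + 20 * k * d) := by
  obtain ⟨f, h1, h2, L, w, h3, h4, h5, h6⟩ := slow_face hk hn rule hrule x₀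
  exact ⟨f, L, w, h1, h2, fun x y T D hT hne hy => best_lt h2 hT hne hy, short_path h2, h3, h4,
    h5, h6⟩

end Pool.Agent.Results.MP_4d246d_lc.FaceSteps
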