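import Pool.Agent.H73.FS.Wipe
set_option autoImplicit false

/-!
# Epochs: doubling the length of the walk
-/

namespace Pool.Agent.H73.FS

open Finset Pool.Agent.TH70.AR Pool.Agent.TH70.AR.MS Pool.Agent.R617.SR

variable {n : ℕ} {A : Rule n} {c : ℕ → ℕ} {d : ℕ}

/-- In every cube with more than `K` coordinates the adversary can make the rule walk along at least `N`
records of total weight at most `T`, and then wipe all of them by freezing at most `l` coordinates; at most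
`K` coordinates are not improving at a record. -/
def Lw (A : Rule n) (c : ℕ → ℕ) (d s K l N : ℕ) (T : ℝ) : Prop :=
  ∀ (Y : Finset (Fin n)) (h : Past n) (a : Fin n → Bool) (Q : Finset (Fin n)), Q.card ≤ d →
    K < Y.card →
    ∃ (q : List (Rec n)) (b : Fin n → Bool) (Q' X : Finset (Fin n)),
      Walk A c h a Q q b Q' ∧ Ext Y q ∧ (∀ r ∈ q, r.S ⊆ Y) ∧ (∀ r ∈ q, r.W ⊆ Y) ∧
      X ⊆ Y ∧ X.card ≤ l ∧ (∀ r ∈ q, Wipes X b r) ∧ N ≤ q.length ∧ Psi s Y q ≤ T ∧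
      ∀ r ∈ q, (Y \ r.S).card ≤ K

theorem lw_zero (hA : Valid d A) (s : ℕ) : Lw A c d s d 1 1 (pw d s) := by
  intro Y h a Q hQ hY
  obtain ⟨S, hS⟩ : ∃ S, S = Y \ Q := ⟨_, rfl⟩
  have hSY : S ⊆ Y := hS ▸ sdiff_subset
  have hne : S.Nonempty := by
    rw [← card_pos]
    have h1 := card_le_card_sdiff_add_card (s := Y) (t := Q)
    rw [← hS] at h1
    omega
  have hSQ : Disjoint S Q := by
    rw [hS]
    exact sdiff_disjoint
  obtain ⟨hM1, hM2, hM3⟩ := hA a (c h.length) S h hne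
  obtain ⟨i, hiT⟩ := resp_nonempty hM3
  have hiS : i ∈ S := resp_sub hM1 hiT
  have hYS : Y \ S ⊆ Q := by
    intro x hx
    rw [hS, mem_sdiff, mem_sdiff] at hx
    by_contra h'
    exact hx.2 ⟨hx.1, h'⟩
  have hYS' := (card_le_card hYS).trans hQ
  refine ⟨[⟨a, S, S⟩], sw a (resp S (A ((a, c h.length, S) :: h))),
    (A ((a, c h.length, S) :: h)).2, {i}, ⟨rfl, hne, hSQ, rfl, rfl⟩, ext_single Y a S, ?_, ?_, ?_,
    by simp, ?_, by simp, ?_, ?_⟩
  · intro r hr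
    rw [List.mem_singleton] at hr
    subst hr
    exact hSY
  · intro r hr
    rw [List.mem_singleton] at hr
    subst hr
    exact hSY
  · simpa using hSY hiS
  · intro r hr
    rw [List.mem_singleton] at hr
    subst hr
    refine ⟨i, mem_singleton_self i, hiS, ?_⟩
    change sw a (resp S (A ((a, c h.length, S) :: h))) i ≠ a i
    rw [sw_mem hiT]
    simp
  · rw [psi_cons, psi_nil, add_zero]
    refine Real.rpow_le_rpow_of_exponent_le (by norm_num) ?_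
    have h2 : ((Y \ S).card : ℝ) ≤ d := by exact_mod_cast hYS'
    change ((Y \ S).card : ℝ) / s ≤ _
    gcongr
  · intro r hr
    rw [List.mem_singleton] at hr
    subst hr
    exact hYS'

theorem lw_mono {s K l N K' l' N' : ℕ} {T T' : ℝ} (h : Lw A c d s K l N T) (hK : K ≤ K')
    (hl : l ≤ l') (hN : N' ≤ N) (hT : T ≤ T') : Lw A c d s K' l' N' T' := by
  intro Y p a Q hQ hY
  obtain ⟨q, b, Q', X, h1, h2, h3, h4, h5, h6, h7, h8, h9, h10⟩ := h Y p a Q hQ (by omega)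
  exact ⟨q, b, Q', X, h1, h2, h3, h4, h5, h6.trans hl, h7, hN.trans h8, h9.trans hT,
    fun r hr => (h10 r hr).trans hK⟩

theorem lw_succ (hA : Valid d A) {θ s K l N : ℕ} {T : ℝ} (hs : 1 ≤ s) (hθ : 1 ≤ θ) (hls : l ≤ s)
    (hg : G θ (θ + 1) ≤ s) (hT : 2 * T ≤ (2 : ℝ) ^ (θ : ℝ)) (h : Lw A c d s K l N T)
    (hK : 2 * s * θ + d + s + 2 * l ≤ K + l) :
    Lw A c d s (K + l) s (2 * N) (6 * T + 8 * (pw d s * HH θ (2 * T) (θ + 1))) := by
  intro Y p a Q hQ hY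
  obtain ⟨q₁, b₁, Q₁, X₁, w₁, e₁, s₁, u₁, x₁, c₁, v₁, n₁, m₁, d₁⟩ := h Y p a Q hQ (by omega)
  have hQ₁ := walk_card hA w₁ hQ
  have hY₁ : (Y \ X₁).card + X₁.card = Y.card := card_sdiff_add_card_eq_card x₁
  obtain ⟨q₂, b₂, Q₂, X₂, w₂, e₂, s₂, u₂, x₂, c₂, v₂, n₂, m₂, d₂⟩ :=
    h (Y \ X₁) (pst c p q₁) b₁ Q₁ hQ₁ (by omega)
  have hQ₂ := walk_card hA w₂ hQ₁
  have hY₂ : ((Y \ X₁) \ X₂).card + X₂.card = (Y \ X₁).card := card_sdiff_add_card_eq_card x₂
  have hT0 : 0 ≤ 2 * T := by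
    have := (psi_nonneg s Y q₁).trans m₁
    linarith
  have hΨ : Psi s ((Y \ X₁) \ X₂) (q₁ ++ q₂) ≤ 2 * T := by
    rw [psi_append]
    have h1 := (psi_mono (s := s) (sdiff_subset.trans sdiff_subset : (Y \ X₁) \ X₂ ⊆ Y) q₁).trans m₁
    have h2 := (psi_mono (s := s) (sdiff_subset : (Y \ X₁) \ X₂ ⊆ Y \ X₁) q₂).trans m₂
    linarith
  obtain ⟨q₃, b₃, Q₃, X₃, w₃, e₃, s₃, u₃, m₃, x₃, -, c₃, v₃, v₃', d₃⟩ :=
    wipe (c := c) hA hs hθ hT0 hT (θ + 1) 0 ((Y \ X₁) \ X₂) ∅ (q₁ ++ q₂)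
      (pst c (pst c p q₁) q₂) b₂ Q₂ hQ₂ (empty_subset _) hΨ
      (by
        rw [pow_zero, pow_zero, mul_one, mul_one]
        have h1 : ((q₁ ++ q₂).length : ℝ) ≤ (2 : ℝ) ^ θ := by
          rw [← Real.rpow_natCast]
          exact (length_le_psi s _ _).trans (hΨ.trans hT)
        have h2 : (q₁ ++ q₂).length ≤ 2 ^ θ := by exact_mod_cast h1
        exact lt_of_le_of_lt h2 (Nat.pow_lt_pow_right (by norm_num) (by omega)))
      (by rw [card_empty]; omega)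
  simp only [sdiff_empty, card_empty, zero_add, Nat.cast_zero, zero_mul] at s₃ u₃ c₃ m₃ d₃
  have f₂ := walk_fix hA w₂ s₂
  have f₃ := walk_fix hA w₃ s₃
  -- the second and third parts
  have S₂₃ : ∀ r ∈ q₂.map (cl X₂ b₂) ++ q₃, r.S ⊆ Y \ X₁ := by
    intro r hr
    rcases List.mem_append.1 hr with hr | hr
    · obtain ⟨s, hs, rfl⟩ := List.mem_map.1 hr
      exact s₂ s hs
    · exact (s₃ r hr).trans sdiff_subset
  have W₂₃ : ∀ r ∈ q₂.map (cl X₂ b₂) ++ q₃, r.W ⊆ Y \ X₁ := by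
    intro r hr
    rcases List.mem_append.1 hr with hr | hr
    · obtain ⟨s, hs, rfl⟩ := List.mem_map.1 hr
      exact (filter_subset _ _).trans (u₂ s hs)
    · exact (u₃ r hr).trans sdiff_subset
  have E₂₃ : Ext (Y \ X₁) (q₂.map (cl X₂ b₂) ++ q₃) :=
    ext_comp e₂ v₂ e₃ s₃ (fun r hr => u₃ r hr) fun r hr x hx =>
      f₃.2 r hr x fun h' => (mem_sdiff.1 h').2 hx
  have E : Ext Y (q₁.map (cl X₁ b₁) ++ (q₂.map (cl X₂ b₂) ++ q₃)) := by
    refine ext_comp e₁ v₁ E₂₃ S₂₃ W₂₃ fun r hr x hx => ?_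
    rcases List.mem_append.1 hr with hr | hr
    · obtain ⟨s, hs, rfl⟩ := List.mem_map.1 hr
      exact f₂.2 s hs x fun h' => (mem_sdiff.1 h').2 hx
    · rw [f₃.2 r hr x fun h' => (mem_sdiff.1 (mem_sdiff.1 h').1).2 hx]
      exact f₂.1 x fun h' => (mem_sdiff.1 h').2 hx
  have hX₃ : ∀ x ∈ X₃, x ∉ X₁ ∧ x ∉ X₂ := fun x hx =>
    ⟨(mem_sdiff.1 (mem_sdiff.1 (x₃ hx)).1).2, (mem_sdiff.1 (x₃ hx)).2⟩
  refine ⟨q₁.map (cl X₁ b₁) ++ (q₂.map (cl X₂ b₂) ++ q₃), b₃, Q₃, X₃, ?_, E, ?_, ?_,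
    x₃.trans (sdiff_subset.trans sdiff_subset), c₃.trans hg, ?_, ?_, ?_, ?_⟩
  · refine walk_append (walk_map w₁) ?_
    rw [pst_map]
    refine walk_append (walk_map w₂) ?_
    rw [pst_map]
    exact w₃
  · intro r hr
    rcases List.mem_append.1 hr with hr | hr
    · obtain ⟨s, hs, rfl⟩ := List.mem_map.1 hr
      exact s₁ s hs
    · exact (S₂₃ r hr).trans sdiff_subset
  · intro r hr
    rcases List.mem_append.1 hr with hr | hr
    · obtain ⟨s, hs, rfl⟩ := List.mem_map.1 hr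
      exact (filter_subset _ _).trans (u₁ s hs)
    · exact (W₂₃ r hr).trans sdiff_subset
  · intro r hr
    rcases List.mem_append.1 hr with hr | hr
    · obtain ⟨s, hs, rfl⟩ := List.mem_map.1 hr
      obtain ⟨x, hx, h1, h2⟩ := v₃ s (List.mem_append_left _ hs)
      exact ⟨x, hx, mem_filter.2 ⟨h1, fun h' => (hX₃ x hx).1 h'.1⟩, h2⟩
    · rcases List.mem_append.1 hr with hr | hr
      · obtain ⟨s, hs, rfl⟩ := List.mem_map.1 hr
        obtain ⟨x, hx, h1, h2⟩ := v₃ s (List.mem_append_right _ hs)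
        exact ⟨x, hx, mem_filter.2 ⟨h1, fun h' => (hX₃ x hx).2 h'.1⟩, h2⟩
      · exact v₃' r hr
  · simp only [List.length_append, List.length_map]
    omega
  · -- the weights
    rw [psi_append, psi_append]
    have p₁ : Psi s Y (q₁.map (cl X₁ b₁)) ≤ 2 * T := by
      have h0 := psi_le_of (s := s) (e := l) (Y := Y) (Y' := Y) (cl X₁ b₁) q₁ fun r hr => by
        have h1 : Y \ (cl X₁ b₁ r).W ⊆ (Y \ r.W) ∪ X₁ := by
          intro x hx
          rw [mem_sdiff] at hx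
          rw [mem_union, mem_sdiff]
          by_cases hxX : x ∈ X₁
          · exact Or.inr hxX
          · exact Or.inl ⟨hx.1, fun hW => hx.2 (mem_filter.2 ⟨hW, fun h' => hxX h'.1⟩)⟩
        have h2 := card_le_card h1
        have h3 := card_union_le (Y \ r.W) X₁
        omega
      have h1 := two_rpow_le (s := s) (e := l) (j := 1) hs (by omega)
      rw [pow_one] at h1
      exact h0.trans (mul_le_mul h1 m₁ (psi_nonneg _ _ _) (by norm_num))
    have p₂ : Psi s Y (q₂.map (cl X₂ b₂)) ≤ 4 * T := by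
      have h0 := psi_le_of (s := s) (e := 2 * l) (Y := Y \ X₁) (Y' := Y) (cl X₂ b₂) q₂
        fun r hr => by
        have h1 : Y \ (cl X₂ b₂ r).W ⊆ ((Y \ X₁) \ r.W) ∪ (X₁ ∪ X₂) := by
          intro x hx
          rw [mem_sdiff] at hx
          rw [mem_union, mem_sdiff, mem_sdiff, mem_union]
          by_cases hxX : x ∈ X₁
          · exact Or.inr (Or.inl hxX)
          by_cases hxX₂ : x ∈ X₂
          · exact Or.inr (Or.inr hxX₂)
          · exact Or.inl ⟨⟨hx.1, hxX⟩,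
              fun hW => hx.2 (mem_filter.2 ⟨hW, fun h' => hxX₂ h'.1⟩)⟩
        have h2 := card_le_card h1
        have h3 := card_union_le ((Y \ X₁) \ r.W) (X₁ ∪ X₂)
        have h3' := card_union_le X₁ X₂
        omega
      have h1 := two_rpow_le (s := s) (e := 2 * l) (j := 2) hs (by omega)
      have h2 : (2 : ℝ) ^ 2 = 4 := by norm_num
      rw [h2] at h1
      exact h0.trans (mul_le_mul h1 m₂ (psi_nonneg _ _ _) (by norm_num))
    have p₃ : Psi s Y q₃ ≤ 8 * (pw d s * HH θ (2 * T) (θ + 1)) := by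
      have h0 := psi_le_of (s := s) (e := 2 * l) (Y := (Y \ X₁) \ X₂) (Y' := Y) id q₃
        fun r hr => by
        have h1 : Y \ r.W ⊆ (((Y \ X₁) \ X₂) \ r.W) ∪ (X₁ ∪ X₂) := by
          intro x hx
          rw [mem_sdiff] at hx
          rw [mem_union, mem_sdiff, mem_sdiff, mem_sdiff, mem_union]
          by_cases hxX : x ∈ X₁
          · exact Or.inr (Or.inl hxX)
          by_cases hxX₂ : x ∈ X₂
          · exact Or.inr (Or.inr hxX₂)
          · exact Or.inl ⟨⟨⟨hx.1, hxX⟩, hxX₂⟩, hx.2⟩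
        have h2 := card_le_card h1
        have h3 := card_union_le (((Y \ X₁) \ X₂) \ r.W) (X₁ ∪ X₂)
        have h3' := card_union_le X₁ X₂
        simp only [id]
        omega
      rw [List.map_id] at h0
      have h1 := two_rpow_le (s := s) (e := 2 * l) (j := 2) hs (by omega)
      have h2 : (2 : ℝ) ^ 2 = 4 := by norm_num
      rw [h2] at h1
      have h3 := two_rpow_le (s := s) (e := G θ (θ + 1)) (j := 1) hs (by omega)
      rw [pow_one] at h3
      have hH := HH_nonneg θ hT0 (θ + 1)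
      have hP := (pw_pos d s).le
      have h4 : Psi s ((Y \ X₁) \ X₂) q₃ ≤ 2 * (pw d s * HH θ (2 * T) (θ + 1)) :=
        m₃.trans (mul_le_mul_of_nonneg_right h3 (mul_nonneg hP hH))
      calc Psi s Y q₃ ≤ 4 * Psi s ((Y \ X₁) \ X₂) q₃ :=
            h0.trans (mul_le_mul_of_nonneg_right h1 (psi_nonneg _ _ _))
        _ ≤ _ := by linarith
    linarith
  · -- the coordinates that are not improving
    intro r hr
    rcases List.mem_append.1 hr with hr | hr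
    · obtain ⟨s, hs, rfl⟩ := List.mem_map.1 hr
      exact (d₁ s hs).trans (by omega)
    rcases List.mem_append.1 hr with hr | hr
    · obtain ⟨s, hs, rfl⟩ := List.mem_map.1 hr
      have h1 : Y \ (cl X₂ b₂ s).S ⊆ ((Y \ X₁) \ s.S) ∪ X₁ := by
        intro x hx
        rw [mem_sdiff] at hx
        rw [mem_union, mem_sdiff, mem_sdiff]
        by_cases hxX : x ∈ X₁
        · exact Or.inr hxX
        · exact Or.inl ⟨⟨hx.1, hxX⟩, hx.2⟩
      have h2 := card_le_card h1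
      have h3 := card_union_le ((Y \ X₁) \ s.S) X₁
      have h4 := d₂ s hs
      omega
    · have h1 : Y \ r.S ⊆ (((Y \ X₁) \ X₂) \ r.S) ∪ (X₁ ∪ X₂) := by
        intro x hx
        rw [mem_sdiff] at hx
        rw [mem_union, mem_sdiff, mem_sdiff, mem_sdiff, mem_union]
        by_cases hxX : x ∈ X₁
        · exact Or.inr (Or.inl hxX)
        by_cases hxX₂ : x ∈ X₂
        · exact Or.inr (Or.inr hxX₂)
        · exact Or.inl ⟨⟨⟨hx.1, hxX⟩, hxX₂⟩, hx.2⟩
      have h2 := card_le_card h1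
      have h3 := card_union_le (((Y \ X₁) \ X₂) \ r.S) (X₁ ∪ X₂)
      have h3' := card_union_le X₁ X₂
      have h4 := d₃ r hr
      omega

/-- all levels; `e` bounds the quotient `d / s` -/
theorem lw_all (hA : Valid d A) {θ s k e : ℕ} (hs : 1 ≤ s) (hθ : 1 ≤ θ) (he : d ≤ e * s)
    (hg : G θ (θ + 1) ≤ s)
    (hk : 2 * (2 ^ e * (2 ^ e * (256 * θ + 134)) ^ k) ≤ 2 ^ θ) (j : ℕ) (hj : j ≤ k) :
    Lw A c d s (2 * s * θ + d + (j + 3) * s) s (2 ^ j)
      (2 ^ e * (2 ^ e * (256 * θ + 134)) ^ j) := by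
  have hP : pw d s ≤ 2 ^ e := two_rpow_le hs he
  have hP1 := one_le_pw d s
  induction j with
  | zero =>
    refine lw_mono (lw_zero hA s) (by omega) hs (by norm_num) ?_
    simpa using hP
  | succ j ih =>
    have hC : (2 : ℝ) * (2 ^ e * (2 ^ e * (256 * θ + 134)) ^ j) ≤ (2 : ℝ) ^ (θ : ℝ) := by
      rw [Real.rpow_natCast]
      have h1 : 2 * (2 ^ e * (2 ^ e * (256 * θ + 134)) ^ j) ≤ 2 ^ θ := by
        refine le_trans (Nat.mul_le_mul_left _ (Nat.mul_le_mul_left _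
          (Nat.pow_le_pow_right ?_ (by omega)))) hk
        have : 0 < 2 ^ e * (256 * θ + 134) := by positivity
        omega
      exact_mod_cast h1
    refine lw_mono (lw_succ hA hs hθ le_rfl hg hC (ih (by omega)) ?_) ?_ le_rfl ?_ ?_
    · nlinarith
    · nlinarith
    · rw [pow_succ]; omega
    · have h1 := HH_le θ (T := 2 * (2 ^ e * (2 ^ e * (256 * (θ : ℝ) + 134)) ^ j)) (by positivity)
        (θ + 1)
      have h2 : (0 : ℝ) ≤ (2 : ℝ) ^ (-((θ + 1 : ℕ) : ℝ) / 2) := by positivity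
      have h3 : (0 : ℝ) ≤ (2 ^ e * (2 ^ e * (256 * (θ : ℝ) + 134)) ^ j) := by positivity
      have h5 := HH_nonneg θ (T := 2 * (2 ^ e * (2 ^ e * (256 * (θ : ℝ) + 134)) ^ j))
        (by positivity) (θ + 1)
      have h6 : (1 : ℝ) ≤ 2 ^ e := one_le_pow₀ (by norm_num)
      obtain ⟨y, hy⟩ : ∃ y : ℝ, y = (2 : ℝ) ^ (-((θ + 1 : ℕ) : ℝ) / 2) := ⟨_, rfl⟩
      obtain ⟨z, hz⟩ : ∃ z : ℝ, z = (2 ^ e * (2 ^ e * (256 * (θ : ℝ) + 134)) ^ j) := ⟨_, rfl⟩
      have hz2 : (2 : ℝ) ^ e * (2 ^ e * (256 * (θ : ℝ) + 134)) ^ (j + 1) =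
          2 ^ e * (256 * (θ : ℝ) + 134) * z := by
        rw [hz, pow_succ]
        ring
      rw [← hy] at h1 h2
      rw [hz2]
      rw [← hz] at h1 h3 h5 ⊢
      obtain ⟨H, hH⟩ : ∃ H : ℝ, H = HH θ (2 * z) (θ + 1) := ⟨_, rfl⟩
      rw [← hH] at h1 h5 ⊢
      obtain ⟨p, hp⟩ : ∃ p : ℝ, p = (2 : ℝ) ^ e := ⟨_, rfl⟩
      rw [← hp] at hP h6 ⊢
      have h4 : 0 ≤ 2 * (2 * (θ : ℝ) + 1) * (2 * z) * y := by positivity
      have h7 : H ≤ 16 * (2 * (θ : ℝ) + 1) * z := by nlinarith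
      have h8 : pw d s * H ≤ p * (16 * (2 * (θ : ℝ) + 1) * z) :=
        mul_le_mul hP h7 h5 (by linarith)
      have h9 : z ≤ p * z := le_mul_of_one_le_left h3 h6
      nlinarith

end Pool.Agent.H73.FS
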