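import Pool.Agent.H73.FS.Level
set_option autoImplicit false

/-!
# The run of a rule whose steps optimise over faces
-/

namespace Pool.Agent.H73.FS

open Finset Pool.Agent.TH70.AR Pool.Agent.TH70.AR.MS Pool.Agent.R617.SR

variable {n : ℕ}

/-- `y` is a best vertex of the face with the free directions `D` through the vertex `x` -/
def Best (f : (Fin n → Bool) → ℕ) (x : Fin n → Bool) (D : Finset (Fin n)) (y : Fin n → Bool) :
    Prop :=
  (∀ i, i ∉ D → y i = x i) ∧ ∀ z : Fin n → Bool, (∀ i, i ∉ D → z i = x i) → f z ≤ f y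

theorem exists_best (f : (Fin n → Bool) → ℕ) (x : Fin n → Bool) (D : Finset (Fin n)) :
    ∃ y, Best f x D y := by
  classical
  obtain ⟨y, hy, hmax⟩ := exists_max_image (univ.filter fun z : Fin n → Bool =>
    ∀ i, i ∉ D → z i = x i) f ⟨x, by simp⟩
  rw [mem_filter] at hy
  exact ⟨y, hy.2, fun z hz => hmax z (by simpa using hz)⟩

/-- a best vertex -/
noncomputable def arg (f : (Fin n → Bool) → ℕ) (x : Fin n → Bool) (D : Finset (Fin n)) :
    Fin n → Bool := (exists_best f x D).choose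

theorem arg_spec (f : (Fin n → Bool) → ℕ) (x : Fin n → Bool) (D : Finset (Fin n)) :
    Best f x D (arg f x D) := (exists_best f x D).choose_spec

/-- a vertex of the face without improving directions in `D` is the best one -/
theorem arg_eq {f : (Fin n → Bool) → ℕ} (hf : AOF f) {x y : Fin n → Bool}
    {D : Finset (Fin n)} (h1 : ∀ i, i ∉ D → y i = x i) (h2 : Disjoint (improving f y) D) :
    arg f x D = y := by
  obtain ⟨u, -, hu⟩ := hf D x
  have e1 : y = u := hu y ⟨h1, fun i hi => by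
    have h3 : i ∉ improving f y := fun h => disjoint_left.1 h2 h hi
    rw [improving, mem_filter] at h3
    exact lt_of_le_of_ne (by by_contra h; exact h3 ⟨mem_univ i, by omega⟩) (hf.ne _ i)⟩
  have e2 : arg f x D = u := hu _ ⟨(arg_spec f x D).1, fun i hi =>
    lt_of_le_of_ne ((arg_spec f x D).2 _ (by
      intro j hj
      rw [flip_of_ne _ (by rintro rfl; exact hj hi)]
      exact (arg_spec f x D).1 j hj)) (hf.ne _ i)⟩
  rw [e1, e2]

/-- `t` moves of the rule from `a` with the past `h` -/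
noncomputable def run (A : Rule n) (f : (Fin n → Bool) → ℕ) :
    ℕ → (Fin n → Bool) → Past n → (Fin n → Bool) × Past n
  | 0, a, h => (a, h)
  | t + 1, a, h => run A f t (arg f (sw a (A (view f a :: h)).1) (A (view f a :: h)).2)
      (view f a :: h)

theorem run_succ (A : Rule n) (f : (Fin n → Bool) → ℕ) (t : ℕ) (a : Fin n → Bool)
    (h : Past n) : run A f (t + 1) a h =
      (arg f (sw (run A f t a h).1 (A (view f (run A f t a h).1 :: (run A f t a h).2)).1)
        (A (view f (run A f t a h).1 :: (run A f t a h).2)).2,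
        view f (run A f t a h).1 :: (run A f t a h).2) := by
  induction t generalizing a h with
  | zero => rfl
  | succ t ih => rw [run, ih]; rfl

theorem run_walk {A : Rule n} {c : ℕ → ℕ} {f : (Fin n → Bool) → ℕ} (hf : AOF f)
    {q : List (Rec n)} {h : Past n} {a b : Fin n → Bool} {Q Q' : Finset (Fin n)}
    (hq : Walk A c h a Q q b Q') (hS : ∀ r ∈ q, improving f r.w = r.S)
    (hv : ∀ (t : ℕ) (ht : t < q.length), f (q[t]).w = c (h.length + t)) :
    ∀ (t : ℕ) (ht : t < q.length), (run A f t a h).1 = (q[t]).w ∧ (q[t]).S.Nonempty := by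
  induction q generalizing h a Q with
  | nil => intro t ht; simp at ht
  | cons r q ih =>
    simp only [Walk] at hq
    obtain ⟨h1, h2, h2', h3⟩ := hq
    have h4 : view f a = (a, c h.length, r.S) := by
      have h5 := hv 0 (by simp)
      simp only [List.getElem_cons_zero, add_zero] at h5
      rw [view, ← h1, h5, hS r List.mem_cons_self]
    intro t ht
    cases t with
    | zero => exact ⟨h1.symm, h2⟩
    | succ t =>
      have hq0 : 0 < q.length := by
        simp only [List.length_cons] at ht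
        omega
      have h6 : arg f (sw a (A (view f a :: h)).1) (A (view f a :: h)).2 =
          sw a (resp r.S (A ((a, c h.length, r.S) :: h))) := by
        rw [h4]
        apply arg_eq hf
        · intro i hi
          exact resp_off a hi
        · cases q with
          | nil => simp at hq0
          | cons s q =>
            simp only [Walk] at h3
            rw [← h3.1, hS s (by simp)]
            exact h3.2.2.1
      have h5 := ih h3 (fun r hr => hS r (List.mem_cons_of_mem _ hr)) (by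
        intro t ht
        have := hv (t + 1) (by simpa using ht)
        simp only [List.getElem_cons_succ] at this
        rw [this, List.length_cons]
        congr 1
        omega) t (by simpa using ht)
      rw [run, h6, h4]
      simpa using h5

/-- the steps increase the objective function -/
theorem best_lt {f : (Fin n → Bool) → ℕ} (hf : AOF f) {x y : Fin n → Bool}
    {T D : Finset (Fin n)} (hT : T ⊆ improving f x) (hne : (T ∪ D ∩ improving f x).Nonempty)
    (hy : Best f (sw x T) D y) : f x < f y := by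
  by_cases h : T.Nonempty
  · exact (sw_lt hf T hT h).trans_le (hy.2 _ fun i _ => rfl)
  · rw [not_nonempty_iff_eq_empty] at h
    subst h
    rw [empty_union] at hne
    obtain ⟨i, hi⟩ := hne
    rw [mem_inter] at hi
    have h1 : f x < f (flip x i) := by
      have := hi.2
      rw [improving, mem_filter] at this
      exact this.2
    refine h1.trans_le (hy.2 _ fun j hj => ?_)
    rw [flip_of_ne _ (by rintro rfl; exact hj hi.1), sw_not_mem (by simp)]

/-- A walk against the adversary is a run on an objective function. -/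
theorem slow_of {n N d K : ℕ} (A : Rule n) (hA : Valid d A) (x₀ : Fin n → Bool)
    {q : List (Rec n)} {b : Fin n → Bool} {Q' : Finset (Fin n)}
    (hq : Walk A (fun t => (t + 1) * 2 ^ n) [] x₀ ∅ q b Q')
    (hE : Ext univ q) (hlen : N ≤ q.length) (hK : ∀ r ∈ q, (univ \ r.S).card ≤ K) :
    ∃ f : (Fin n → Bool) → ℕ, Function.Injective f ∧ AOF f ∧
      ∃ (L : ℕ) (w : ℕ → (Fin n → Bool)), w 0 = x₀ ∧
        (∀ t < L, (improving f (w t)).Nonempty ∧
          Best f (sw (w t) (A (seen f w t)).1) (A (seen f w t)).2 (w (t + 1))) ∧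
        improving f (w L) = ∅ ∧ N ≤ L ∧ ∀ t < N, n ≤ (improving f (w t)).card + K := by
  classical
  obtain ⟨f₀, hf₀, hf₀S, -⟩ := hE (fun _ => false) ∅ (by simp)
  have hf₀S' : ∀ r ∈ q, improving f₀ r.w = r.S := by
    intro r hr
    ext i
    rw [improving, mem_filter]
    simpa using hf₀S r hr i (mem_univ i)
  -- the visited vertices increase
  have hinc : ∀ (q : List (Rec n)) (h : Past n) (a : Fin n → Bool) (Q : Finset (Fin n)),
      Walk A (fun t => (t + 1) * 2 ^ n) h a Q q b Q' → (∀ r ∈ q, improving f₀ r.w = r.S) →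
      ∀ (t : ℕ) (ht : t + 1 < q.length), f₀ (q[t]).w < f₀ (q[t + 1]).w := by
    intro q
    induction q with
    | nil => intro h a Q _ _ t ht; simp at ht
    | cons r q ih =>
      intro h a Q hq hS t ht
      simp only [Walk] at hq
      obtain ⟨h1, h2, h2', h3⟩ := hq
      cases t with
      | zero =>
        cases q with
        | nil => simp at ht
        | cons s q =>
          simp only [Walk] at h3
          simp only [List.getElem_cons_zero, List.getElem_cons_succ]
          rw [h3.1, h1]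
          have h4 := hA a ((h.length + 1) * 2 ^ n) r.S h h2
          apply sw_lt hf₀ _ _ (resp_nonempty h4.2.2)
          rw [← h1, hS r List.mem_cons_self, h1]
          exact resp_sub h4.1
      | succ t =>
        simp only [List.getElem_cons_succ]
        exact ih _ _ _ h3 (fun r hr => hS r (List.mem_cons_of_mem _ hr)) t (by simpa using ht)
  set u : ℕ → (Fin n → Bool) := fun t => if ht : t < q.length then (q[t]).w else x₀ with hu
  have hut : ∀ (t : ℕ) (ht : t < q.length), u t = (q[t]).w := fun t ht => by simp [hu, ht]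
  obtain ⟨f, hinj, hadj, hval⟩ := relabel hf₀ (T := q.length) u (by
    intro t ht
    rw [hut t (by omega), hut (t + 1) ht]
    exact hinc q [] x₀ ∅ hq hf₀S' t ht)
  have himp : ∀ x, improving f x = improving f₀ x := by
    intro x
    ext i
    simp only [improving, mem_filter, hadj]
  have hAOF : AOF f := by
    have h1 : ∀ y i, f (TH70.AR.flip y i) < f y ↔ f₀ (TH70.AR.flip y i) < f₀ y := by
      intro y i
      have := hadj (TH70.AR.flip y i) i
      rwa [TH70.AR.flip_flip] at this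
    intro F x
    obtain ⟨y, ⟨hy1, hy2⟩, hy3⟩ := hf₀ F x
    exact ⟨y, ⟨hy1, fun i hi => (h1 y i).2 (hy2 i hi)⟩,
      fun z hz => hy3 z ⟨hz.1, fun i hi => (h1 z i).1 (hz.2 i hi)⟩⟩
  have hrun := run_walk (f := f) hAOF hq (fun r hr => (himp _).trans (hf₀S' r hr)) (by
    intro t ht
    rw [← hut t ht, hval t ht]
    simp)
  refine ⟨f, hinj, hAOF, ?_⟩
  -- the run
  set w : ℕ → (Fin n → Bool) := fun t => (run A f t x₀ []).1 with hw
  have hseen : ∀ t, seen f w t = view f (w t) :: (run A f t x₀ []).2 := by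
    intro t
    induction t with
    | zero => rfl
    | succ t ih => rw [seen, ih, run_succ]
  have hstep : ∀ t, w (t + 1) = arg f (sw (w t) (A (seen f w t)).1) (A (seen f w t)).2 := by
    intro t
    rw [hseen]
    simp only [hw, run_succ]
  have hbest : ∀ t, Best f (sw (w t) (A (seen f w t)).1) (A (seen f w t)).2 (w (t + 1)) := by
    intro t
    rw [hstep]
    exact arg_spec f _ _
  have hup : ∀ t, (improving f (w t)).Nonempty → f (w t) < f (w (t + 1)) := by
    intro t ht
    have h1 := hA (w t) (f (w t)) (improving f (w t)) (run A f t x₀ []).2 ht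
    have h2 := hbest t
    rw [hseen] at h2
    exact best_lt hAOF h1.1 h1.2.2 h2
  have hend : ∃ t, improving f (w t) = ∅ := by
    by_contra hne
    push Not at hne
    have h1 : StrictMono fun t => f (w t) := strictMono_nat_of_lt_succ fun t => hup t (hne t)
    have h2 := h1.injective
    have h3 : Function.Injective w := fun s t h => h2 (by simp only [h])
    exact not_injective_infinite_finite w h3
  refine ⟨Nat.find hend, w, rfl, fun t ht => ⟨?_, hbest t⟩, Nat.find_spec hend, ?_, ?_⟩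
  · exact nonempty_iff_ne_empty.2 (Nat.find_min hend ht)
  · by_contra hlt
    have h1 : Nat.find hend < q.length := by omega
    have h2 := hrun _ h1
    have h3 : improving f (w (Nat.find hend)) = (q[Nat.find hend]).S := by
      rw [himp, ← hf₀S' _ (List.getElem_mem h1)]
      congr 1
      exact h2.1
    rw [Nat.find_spec hend] at h3
    rw [← h3] at h2
    exact absurd h2.2 (by simp)
  · intro t ht
    have h1 : t < q.length := by omega
    have h2 := (hrun t h1).1
    have h3 : improving f (w t) = (q[t]).S := by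
      rw [himp, ← hf₀S' _ (List.getElem_mem h1)]
      congr 1
    have h4 := hK _ (List.getElem_mem h1)
    have h5 := card_le_card_sdiff_add_card (s := (univ : Finset (Fin n))) (t := (q[t]).S)
    rw [card_univ, Fintype.card_fin] at h5
    rw [h3]
    omega

/-- the choice of the parameters -/
theorem params {n k d Λ : ℕ} (hk : 1 ≤ k) (hΛ : 16 ≤ Λ) (hn2 : n < 2 ^ Λ)
    (hn : 100 * k ^ 2 * Λ ^ 3 + 20 * k * d ≤ n) :
    ∃ θ s e : ℕ, 1 ≤ s ∧ 1 ≤ θ ∧ d ≤ e * s ∧ G θ (θ + 1) ≤ s ∧
      2 * (2 ^ e * (2 ^ e * (256 * θ + 134)) ^ k) ≤ 2 ^ θ ∧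
      2 * s * θ + d + (k + 3) * s < 100 * k ^ 2 * Λ ^ 3 + 20 * k * d := by
  obtain ⟨r, hr⟩ : ∃ r, r = Nat.sqrt (16 * Λ * k * d) := ⟨_, rfl⟩
  have hr1 : r * r ≤ 16 * Λ * k * d := hr ▸ Nat.sqrt_le _
  have hr2 : 16 * Λ * k * d < (r + 1) * (r + 1) := hr ▸ Nat.lt_succ_sqrt _
  obtain ⟨s, hs⟩ : ∃ s, s = 16 * k * Λ ^ 2 + r + 1 := ⟨_, rfl⟩
  obtain ⟨m, hm⟩ : ∃ m, m = d / s := ⟨_, rfl⟩
  have hs0 : 0 < s := by omega
  have hm1 : m * s ≤ d := hm ▸ Nat.div_mul_le_self d s
  have hm2 : d ≤ (m + 1) * s := by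
    have := Nat.lt_div_mul_add hs0 (a := d)
    rw [← hm] at this
    nlinarith
  obtain ⟨a, ha⟩ : ∃ a, a = k ^ 2 * Λ ^ 3 := ⟨_, rfl⟩
  obtain ⟨b, hb⟩ : ∃ b, b = k * d := ⟨_, rfl⟩
  have hab : 100 * k ^ 2 * Λ ^ 3 + 20 * k * d = 100 * a + 20 * b := by
    rw [ha, hb]
    ring
  have hn' : 100 * a + 20 * b ≤ n := by
    rw [← hab]
    exact hn
  have hkΛ : k * Λ ≤ a := by
    rw [ha]
    calc k * Λ = k * Λ * 1 := by ring
      _ ≤ k * Λ * (k * Λ ^ 2) := Nat.mul_le_mul_left _ (Nat.mul_pos (by omega) (by positivity))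
      _ = k ^ 2 * Λ ^ 3 := by ring
  have hkr : k * Λ * r ≤ 2 * (a + b) := by
    have h1 : (k * Λ * r) * (k * Λ * r) ≤ (2 * (a + b)) * (2 * (a + b)) := by
      calc (k * Λ * r) * (k * Λ * r) = k ^ 2 * Λ ^ 2 * (r * r) := by ring
        _ ≤ k ^ 2 * Λ ^ 2 * (16 * Λ * k * d) := Nat.mul_le_mul_left _ hr1
        _ = 16 * (a * b) := by rw [ha, hb]; ring
        _ ≤ (2 * (a + b)) * (2 * (a + b)) := by
          zify
          nlinarith [sq_nonneg ((a : ℤ) - b)]
    exact Nat.mul_self_le_mul_self_iff.1 h1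
  have hks : k * Λ * s ≤ 19 * a + 2 * b := by
    have : k * Λ * s = 16 * a + k * Λ * r + k * Λ := by rw [hs, ha]; ring
    omega
  obtain ⟨θ, hθ⟩ : ∃ θ, θ = k * (2 * (m + 1) + 9 + Λ) := ⟨_, rfl⟩
  have hθ1 : θ ≤ k * (2 * m + 2 * Λ) := by
    rw [hθ]
    exact Nat.mul_le_mul_left _ (by omega)
  have hfin : 2 * s * θ + d + (k + 3) * s < 100 * k ^ 2 * Λ ^ 3 + 20 * k * d := by
    rw [hab]
    have h1 : 2 * s * θ ≤ 4 * b + 4 * (k * Λ * s) := by
      calc 2 * s * θ ≤ 2 * s * (k * (2 * m + 2 * Λ)) := Nat.mul_le_mul_left _ hθ1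
        _ = 4 * (k * (m * s)) + 4 * (k * Λ * s) := by ring
        _ ≤ 4 * b + 4 * (k * Λ * s) := by
          have := Nat.mul_le_mul_left k hm1
          omega
    have h2 : d ≤ b := by rw [hb]; exact Nat.le_mul_of_pos_left d (by omega)
    have h3 : (k + 3) * s ≤ k * Λ * s := by
      refine Nat.mul_le_mul_right _ ?_
      nlinarith
    have h4 : 0 < a := by rw [ha]; positivity
    omega
  have hθn : 32 * θ < n := by
    have h1 : 16 ≤ s := by
      rw [hs]
      have : 1 ≤ k * Λ ^ 2 := Nat.mul_pos (by omega) (by positivity)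
      nlinarith
    have h2 : 2 * 16 * θ ≤ 2 * s * θ := Nat.mul_le_mul_right _ (Nat.mul_le_mul_left _ h1)
    omega
  have hθpos : 1 ≤ θ := by rw [hθ]; exact Nat.mul_pos (by omega) (by omega)
  refine ⟨θ, s, m + 1, hs0, hθpos, hm2, ?_, ?_, hfin⟩
  · -- the number of steps of a wiping phase
    have h1 := G_le θ (θ + 1)
    have h2 := harmonic_le_one_add_log (θ + 1 + 1)
    have h3 : ((θ + 1 + 1 : ℕ) : ℝ) ≤ 2 ^ Λ := by
      have : θ + 1 + 1 ≤ 2 ^ Λ := by omega
      exact_mod_cast this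
    have h4 : Real.log ((θ + 1 + 1 : ℕ) : ℝ) ≤ Λ * 0.6931471808 := by
      calc Real.log ((θ + 1 + 1 : ℕ) : ℝ) ≤ Real.log ((2 : ℝ) ^ Λ) :=
            Real.log_le_log (by positivity) h3
        _ = Λ * Real.log 2 := by rw [Real.log_pow]
        _ ≤ _ := mul_le_mul_of_nonneg_left Real.log_two_lt_d9.le (by positivity)
    have hΛR : (16 : ℝ) ≤ Λ := by exact_mod_cast hΛ
    have hθR : (1 : ℝ) ≤ θ := by exact_mod_cast hθpos
    have h5 : (G θ (θ + 1) : ℝ) ≤ 4 * θ * Λ := by
      have h6 : (harmonic (θ + 1 + 1) : ℝ) - 1 ≤ Λ * 0.6931471808 := by linarith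
      have h7 := mul_le_mul_of_nonneg_left h6 (by positivity : (0 : ℝ) ≤ 4 * θ)
      push_cast at h1
      nlinarith
    have h6 : G θ (θ + 1) ≤ 4 * θ * Λ := by exact_mod_cast h5
    refine h6.trans ?_
    have h7 : 4 * θ * Λ ≤ 8 * (k * Λ * m) + 8 * (k * Λ ^ 2) := by
      calc 4 * θ * Λ ≤ 4 * (k * (2 * m + 2 * Λ)) * Λ :=
            Nat.mul_le_mul_right _ (Nat.mul_le_mul_left _ hθ1)
        _ = 8 * (k * Λ * m) + 8 * (k * Λ ^ 2) := by ring
    refine h7.trans ?_
    have h8 : (8 * (k * Λ * m) + 8 * (k * Λ ^ 2)) * s * 2 ≤ s * s * 2 := by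
      have h9 : 16 * (k * Λ * m) * s ≤ s * s := by
        calc 16 * (k * Λ * m) * s = 16 * Λ * k * (m * s) := by ring
          _ ≤ 16 * Λ * k * d := Nat.mul_le_mul_left _ hm1
          _ ≤ (r + 1) * (r + 1) := hr2.le
          _ ≤ s * s := Nat.mul_le_mul (by omega) (by omega)
      have h10 : 16 * (k * Λ ^ 2) * s ≤ s * s := Nat.mul_le_mul_right _ (by rw [hs]; nlinarith)
      calc (8 * (k * Λ * m) + 8 * (k * Λ ^ 2)) * s * 2 =
            16 * (k * Λ * m) * s + 16 * (k * Λ ^ 2) * s := by ring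
        _ ≤ s * s + s * s := Nat.add_le_add h9 h10
        _ = s * s * 2 := by ring
    exact Nat.le_of_mul_le_mul_right (Nat.le_of_mul_le_mul_right h8 (by norm_num)) hs0
  · -- the weights
    have h1 : 256 * θ + 134 ≤ 2 ^ (8 + Λ) := by
      have h2 : 134 ≤ 2 ^ (7 + Λ) := by
        calc 134 ≤ 2 ^ 8 := by norm_num
          _ ≤ 2 ^ (7 + Λ) := Nat.pow_le_pow_right (by norm_num) (by omega)
      have h3 : 256 * θ ≤ 2 ^ (7 + Λ) := by
        rw [pow_add]
        omega
      have h4 : 2 ^ (8 + Λ) = 2 ^ (7 + Λ) + 2 ^ (7 + Λ) := by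
        rw [show 8 + Λ = (7 + Λ) + 1 by omega, pow_succ]
        ring
      omega
    calc 2 * (2 ^ (m + 1) * (2 ^ (m + 1) * (256 * θ + 134)) ^ k)
        ≤ 2 * (2 ^ (m + 1) * (2 ^ (m + 1) * 2 ^ (8 + Λ)) ^ k) :=
          Nat.mul_le_mul_left _ (Nat.mul_le_mul_left _ (Nat.pow_le_pow_left
            (Nat.mul_le_mul_left _ h1) _))
      _ = 2 ^ (1 + (m + 1) + (m + 1 + (8 + Λ)) * k) := by
          rw [← pow_add, ← pow_mul, pow_add, pow_add, pow_one]
          ring
      _ ≤ 2 ^ θ := by
          refine Nat.pow_le_pow_right (by norm_num) ?_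
          rw [hθ]
          nlinarith

/-- The main lower bound. -/
theorem slow_face {n k d : ℕ} (hk : 1 ≤ k)
    (hn : 100 * k ^ 2 * (Nat.log 2 n + 1) ^ 3 + 20 * k * d ≤ n)
    (A : Rule n) (hA : Valid d A) (x₀ : Fin n → Bool) :
    ∃ f : (Fin n → Bool) → ℕ, Function.Injective f ∧ AOF f ∧
      ∃ (L : ℕ) (w : ℕ → (Fin n → Bool)), w 0 = x₀ ∧
        (∀ t < L, (improving f (w t)).Nonempty ∧
          Best f (sw (w t) (A (seen f w t)).1) (A (seen f w t)).2 (w (t + 1))) ∧
        improving f (w L) = ∅ ∧ 2 ^ k ≤ L ∧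
        ∀ t < 2 ^ k, n ≤ (improving f (w t)).card +
          (100 * k ^ 2 * (Nat.log 2 n + 1) ^ 3 + 20 * k * d) := by
  obtain ⟨Λ, hΛ⟩ : ∃ Λ, Λ = Nat.log 2 n + 1 := ⟨_, rfl⟩
  rw [← hΛ] at hn ⊢
  have hn2 : n < 2 ^ Λ := hΛ ▸ Nat.lt_pow_succ_log_self (by norm_num) n
  have hk2 : 1 ≤ k ^ 2 := Nat.one_le_pow _ _ (by omega)
  have hlog : ∀ {x : ℕ}, 100 * x ^ 3 ≤ 100 * k ^ 2 * x ^ 3 := by
    intro x
    refine Nat.mul_le_mul_right _ ?_
    omega
  have h1 : 100 ≤ n := by
    have := @hlog Λ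
    have h2 : 1 ≤ Λ ^ 3 := Nat.one_le_pow _ _ (by omega)
    omega
  have h2 : 7 ≤ Λ := by
    have : 6 ≤ Nat.log 2 n := Nat.le_log_of_pow_le (by norm_num) (by omega)
    omega
  have h3 : 34300 ≤ n := by
    have := @hlog Λ
    have h4 : 7 ^ 3 ≤ Λ ^ 3 := Nat.pow_le_pow_left h2 3
    omega
  have h4 : 16 ≤ Λ := by
    have : 15 ≤ Nat.log 2 n := Nat.le_log_of_pow_le (by norm_num) (by omega)
    omega
  obtain ⟨θ, s, e, p1, p2, p3, p4, p5, p6⟩ := params hk h4 hn2 hn
  obtain ⟨q, b, Q', X, hq, hE, -, -, -, -, -, hlen, -, hK⟩ :=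
    lw_all (n := n) (c := fun t => (t + 1) * 2 ^ n) hA p1 p2 p3 p4 p5 k le_rfl univ [] x₀ ∅
      (by simp) (by simpa using p6.trans_le hn)
  exact slow_of A hA x₀ hq hE hlen fun r hr => (hK r hr).trans p6.le

end Pool.Agent.H73.FS
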