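import Pool.Graph.R_seed8.R892.MS.Uso
import Pool.Graph.R_seed8.R617.SR.Num
set_option autoImplicit false

/-!
# The adversary for rules whose steps optimise over faces

A rule sees the past and names a pair `(T, D)`: it switches the set `T` of improving directions and then
goes to the best vertex of the face with the free directions `D` through the vertex it has reached. The
adversary answers with a switch of the set `resp S (T, D)`, and shows no direction of `D` as improving at
the next vertex.
-/

namespace Pool.Agent.H73.FS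

open Finset Pool.Agent.TH70.AR Pool.Agent.TH70.AR.MS Pool.Agent.R617.SR

variable {n : ℕ}

/-- the rules of this file -/
abbrev Rule (n : ℕ) := Past n → Finset (Fin n) × Finset (Fin n)

/-- the rule names a set `T` of improving directions and a set `D` of at most `d` directions such that one
improving direction at least is in `T` or in `D` -/
def Valid (d : ℕ) (A : Rule n) : Prop :=
  ∀ (x : Fin n → Bool) (c : ℕ) (S : Finset (Fin n)) (l : Past n), S.Nonempty →
    (A ((x, c, S) :: l)).1 ⊆ S ∧ (A ((x, c, S) :: l)).2.card ≤ d ∧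
      ((A ((x, c, S) :: l)).1 ∪ (A ((x, c, S) :: l)).2 ∩ S).Nonempty

open Classical in
/-- the directions in which the adversary lets the rule move -/
noncomputable def resp (S : Finset (Fin n)) (M : Finset (Fin n) × Finset (Fin n)) :
    Finset (Fin n) :=
  if M.1.Nonempty then M.1 else if h : (M.2 ∩ S).Nonempty then {h.choose} else ∅

theorem resp_sub {S : Finset (Fin n)} {M : Finset (Fin n) × Finset (Fin n)} (h : M.1 ⊆ S) :
    resp S M ⊆ S := by
  unfold resp
  split_ifs with h1 h2
  · exact h
  · rw [singleton_subset_iff]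
    exact mem_of_mem_inter_right h2.choose_spec
  · exact empty_subset _

theorem resp_nonempty {S : Finset (Fin n)} {M : Finset (Fin n) × Finset (Fin n)}
    (h : (M.1 ∪ M.2 ∩ S).Nonempty) : (resp S M).Nonempty := by
  unfold resp
  split_ifs with h1 h2
  · exact h1
  · exact singleton_nonempty _
  · obtain ⟨x, hx⟩ := h
    rw [mem_union] at hx
    rcases hx with hx | hx
    · exact absurd ⟨x, hx⟩ h1
    · exact absurd ⟨x, hx⟩ h2

theorem resp_off {S : Finset (Fin n)} {M : Finset (Fin n) × Finset (Fin n)} (a : Fin n → Bool)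
    {i : Fin n} (hi : i ∉ M.2) : sw a (resp S M) i = sw a M.1 i := by
  unfold resp
  split_ifs with h1 h2
  · rfl
  · have h3 : M.1 = ∅ := not_nonempty_iff_eq_empty.1 h1
    have h4 : i ∉ ({h2.choose} : Finset (Fin n)) := by
      rw [mem_singleton]
      rintro rfl
      exact hi (mem_of_mem_inter_left h2.choose_spec)
    rw [sw_not_mem h4, h3, sw_not_mem (by simp)]
  · have h3 : M.1 = ∅ := not_nonempty_iff_eq_empty.1 h1
    rw [h3]

/-- The records `p` form a walk of the rule `A` against the adversary from `a` to `b`; `h` is the past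
before `a`, the vertex visited after `t` steps has value `c t`, and `Q` is the set of the directions which
must not be shown as improving at the next vertex, at the end `Q'`. -/
def Walk (A : Rule n) (c : ℕ → ℕ) :
    Past n → (Fin n → Bool) → Finset (Fin n) → List (Rec n) → (Fin n → Bool) → Finset (Fin n) → Prop
  | _, a, Q, [], b, Q' => a = b ∧ Q = Q'
  | h, a, Q, r :: p, b, Q' => r.w = a ∧ r.S.Nonempty ∧ Disjoint r.S Q ∧
      Walk A c ((a, c h.length, r.S) :: h) (sw a (resp r.S (A ((a, c h.length, r.S) :: h))))
        (A ((a, c h.length, r.S) :: h)).2 p b Q'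

variable {A : Rule n} {c : ℕ → ℕ} {d : ℕ}

theorem walk_append {p q : List (Rec n)} {h : Past n} {a b e : Fin n → Bool}
    {Q Q₁ Q₂ : Finset (Fin n)}
    (hp : Walk A c h a Q p e Q₁) (hq : Walk A c (pst c h p) e Q₁ q b Q₂) :
    Walk A c h a Q (p ++ q) b Q₂ := by
  induction p generalizing h a Q with
  | nil =>
    simp only [Walk] at hp
    obtain ⟨rfl, rfl⟩ := hp
    simpa [pst] using hq
  | cons r p ih =>
    simp only [Walk, List.cons_append] at hp ⊢
    obtain ⟨h1, h2, h2', h3⟩ := hp
    refine ⟨h1, h2, h2', ih h3 ?_⟩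
    rw [← h1]
    simpa [pst] using hq

theorem walk_map {p : List (Rec n)} {h : Past n} {a e : Fin n → Bool} {Q Q₁ : Finset (Fin n)}
    {X : Finset (Fin n)} {b : Fin n → Bool} (hp : Walk A c h a Q p e Q₁) :
    Walk A c h a Q (p.map (cl X b)) e Q₁ := by
  induction p generalizing h a Q with
  | nil => simpa [Walk] using hp
  | cons r p ih =>
    simp only [Walk, List.map_cons] at hp ⊢
    exact ⟨hp.1, hp.2.1, hp.2.2.1, ih hp.2.2.2⟩

theorem walk_card (hA : Valid d A) {p : List (Rec n)} {h : Past n} {a b : Fin n → Bool}
    {Q Q' : Finset (Fin n)} (hp : Walk A c h a Q p b Q') (hQ : Q.card ≤ d) : Q'.card ≤ d := by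
  induction p generalizing h a Q with
  | nil =>
    simp only [Walk] at hp
    obtain ⟨-, rfl⟩ := hp
    exact hQ
  | cons r p ih =>
    simp only [Walk] at hp
    obtain ⟨h1, h2, h2', h3⟩ := hp
    exact ih h3 (hA a (c h.length) r.S h h2).2.1

/-- the walk does not change coordinates that are never shown as improving -/
theorem walk_fix (hA : Valid d A) {Y : Finset (Fin n)} {p : List (Rec n)} {h : Past n}
    {a b : Fin n → Bool} {Q Q' : Finset (Fin n)} (hp : Walk A c h a Q p b Q')
    (hS : ∀ r ∈ p, r.S ⊆ Y) :
    (∀ x, x ∉ Y → b x = a x) ∧ ∀ r ∈ p, ∀ x, x ∉ Y → r.w x = a x := by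
  induction p generalizing h a Q with
  | nil =>
    simp only [Walk] at hp
    obtain ⟨rfl, -⟩ := hp
    simp
  | cons r p ih =>
    simp only [Walk] at hp
    obtain ⟨h1, h2, h2', h3⟩ := hp
    obtain ⟨i1, i2⟩ := ih h3 fun r hr => hS r (List.mem_cons_of_mem _ hr)
    have hm := (resp_sub (hA a (c h.length) r.S h h2).1).trans (hS r List.mem_cons_self)
    have key : ∀ x, x ∉ Y → sw a (resp r.S (A ((a, c h.length, r.S) :: h))) x = a x := by
      intro x hx
      exact sw_not_mem fun h => hx (hm h)
    refine ⟨fun x hx => (i1 x hx).trans (key x hx), fun s hs x hx => ?_⟩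
    rcases List.mem_cons.1 hs with rfl | hs
    · rw [h1]
    · exact (i2 s hs x hx).trans (key x hx)

end Pool.Agent.H73.FS
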